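import Mathlib
import Pool.Agent.R872.VS.RedPoly

/-!
# Single-vehicle scheduling on a path with positive handling times is NP-hard

The decision version of the single-vehicle scheduling problem on a path with release times and
positive handling times (Q1 of MP_6e49ee_lc) is NP-hard, numbers being coded in binary (weak
NP-hardness).  It stays NP-hard when the start vertex is an end of the path and all travel times are
positive and symmetric.

Reduction from subset sum.  For the items `a 0, …, a (n - 1)` and the target `t` the path is
`v₀, o₀, m₀, o₁, m₁, …, o_{n-1}, m_{n-1}, c`, the vertices `o k` and `m k` being at distance `a k`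
and all other neighbours at distance `t + 1`.  The jobs `m k` are available at once and take very
long; the job `o k` takes `2 a k` and is released just when the vehicle can have finished `m k`; the
job `c` is released `4 t` later than the vehicle can be there.  Doing `o k` on the way to `c` (going
back from `m k`) costs `4 a k` of this slack and additional travel `2 a k`; doing it on the way back
costs `2 a k` after `c`.

The notions `PolyTime`, `InNP`, `Reduces`, `NPHard`, `bits` and `NPHardP` are those of
`Pool.Agent.NPC.Defs`: polynomial time is Mathlib's `Turing.TM2ComputableInPolyTime` on bit strings,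
`NP` is defined by certificates, hardness is under polynomial-time many-one reductions, and numbers
(in binary), pairs and lists are coded by bit strings.  The scheduling problem is defined in
`Pool.Agent.R872.VS.Defs`.
-/

namespace Pool.Agent.Results.MP_6e49ee_lc.PathNPHard

open Pool.Agent.NPC Pool.Agent.R872.VS

/-- **The single-vehicle scheduling problem on a path with release times and positive handling
times is NP-hard** (first part), even if the start vertex is an end of the path and the travel times
are positive and symmetric (second part). -/
theorem result :
    NPHardP (fun I : Inst => I.WellFormed ∧ (∀ v < I.n, 0 < I.hand v) ∧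
      ∃ π : List ℕ, π.Perm (List.range I.n) ∧ I.completion π ≤ I.bound) ∧
    NPHardP (fun I : Inst => I.WellFormed ∧ (∀ v < I.n, 0 < I.hand v) ∧ I.start = 0 ∧
      (∀ i, i + 1 < I.n → 0 < I.right i ∧ I.right i = I.left i) ∧
      ∃ π : List ℕ, π.Perm (List.range I.n) ∧ I.completion π ≤ I.bound) := by
  have hard := Pool.Agent.NPC.R872VS.hardPr_sched
  constructor
  · refine HardI.toNPHardP ?_
    intro L hL
    obtain ⟨f, hf, hpr, hfL⟩ := hard L hL
    refine ⟨f, hf, fun x => (hfL x).trans ?_⟩
    obtain ⟨h1, -, h3, -⟩ := hpr x
    exact ⟨fun h => ⟨h1, h3, h⟩, fun h => h.2.2⟩
  · refine HardI.toNPHardP ?_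
    intro L hL
    obtain ⟨f, hf, hpr, hfL⟩ := hard L hL
    refine ⟨f, hf, fun x => (hfL x).trans ?_⟩
    obtain ⟨h1, h2, h3, h4⟩ := hpr x
    exact ⟨fun h => ⟨h1, h3, h2, h4, h⟩, fun h => h.2.2.2.2⟩

end Pool.Agent.Results.MP_6e49ee_lc.PathNPHard
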